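import Pool.Agent.Helper19.RD.Stmts9
import Pool.Agent.Helper19.RD.PL

/-! # Row VLB of `Pool/Agent/Helper19/RD/Stmts9.lean` -/

set_option autoImplicit false

namespace Pool.Agent.Helper19.RD

open Finset Pool.Agent.Helper18.RD

namespace S17V

/-- the primes in `(z, y]` which do not divide `q` -/
def TT (q z y : ℕ) : Finset ℕ := (Icc (z + 1) y).filter (fun p => p.Prime ∧ ¬ p ∣ q)

theorem TT_sub (q z y : ℕ) (hz : 2 ≤ z) : TT q z y ⊆ NP q y := by
  intro p hp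
  unfold TT at hp
  rw [mem_filter, mem_Icc] at hp
  unfold NP
  rw [mem_filter, mem_Icc]
  exact ⟨⟨by omega, hp.1.2⟩, hp.2.1, by omega, hp.2.2⟩

theorem step (m : ℝ) (hm : 1 ≤ m) :
    Real.sqrt m * (1 / m - 1 / (m + 1)) ≤ 2 * (1 / Real.sqrt m - 1 / Real.sqrt (m + 1)) := by
  have hm0 : 0 < m := by linarith
  set a := Real.sqrt m with ha
  set b := Real.sqrt (m + 1) with hb
  have ha0 : 0 < a := Real.sqrt_pos.2 hm0
  have hb0 : 0 < b := Real.sqrt_pos.2 (by linarith)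
  have ha2 : a ^ 2 = m := Real.sq_sqrt hm0.le
  have hb2 : b ^ 2 = m + 1 := Real.sq_sqrt (by linarith)
  have hab : a ≤ b := Real.sqrt_le_sqrt (by linarith)
  have e1 : b ^ 2 - a ^ 2 = 1 := by rw [ha2, hb2]; ring
  have e2 : (b - a) * (b + a) = 1 := by nlinarith
  rw [← hb2, ← ha2]
  have e3 : a * (1 / a ^ 2 - 1 / b ^ 2) = 1 / (a * b ^ 2) := by
    field_simp
    linarith
  have e4 : 2 * (1 / a - 1 / b) = 2 * (b - a) / (a * b) := by
    field_simp
  rw [e3, e4, div_le_div_iff₀ (by positivity) (by positivity)]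
  have e5 : 1 ≤ (b - a) * (2 * b) := by nlinarith
  have e6 : 0 < a * b := by positivity
  nlinarith

theorem sum_TT (q z : ℕ) (D : ℝ) (hD : 0 ≤ D) (x : ℕ) (hzx : z ≤ x)
    (h : ∀ y : ℕ, z ≤ y → y ≤ x → ((TT q z y).card : ℝ) ≤ Real.sqrt D * Real.sqrt y) :
    ∑ p ∈ TT q z x, (1 : ℝ) / p ≤ (TT q z x).card / ((x : ℝ) + 1) +
      2 * Real.sqrt D * (1 / Real.sqrt ((z : ℝ) + 1) - 1 / Real.sqrt ((x : ℝ) + 1)) := by
  induction x, hzx using Nat.le_induction with
  | base =>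
    have : TT q z z = ∅ := by
      unfold TT
      rw [Icc_eq_empty (by omega), filter_empty]
    rw [this]
    simp
  | succ x hx ih =>
    have ih' := ih (fun y h1 h2 => h y h1 (by omega))
    have hc := h (x + 1) (by omega) le_rfl
    have hIcc : Icc (z + 1) (x + 1) = insert (x + 1) (Icc (z + 1) x) := by
      ext a
      simp only [mem_Icc, mem_insert]
      omega
    obtain ⟨δ, hδ1, hδ2⟩ : ∃ δ : ℝ, ((TT q z (x + 1)).card : ℝ) = (TT q z x).card + δ ∧
        ∑ p ∈ TT q z (x + 1), (1 : ℝ) / p = ∑ p ∈ TT q z x, (1 : ℝ) / p + δ / ((x : ℝ) + 1) := by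
      by_cases hp : (x + 1).Prime ∧ ¬ (x + 1) ∣ q
      · have e : TT q z (x + 1) = insert (x + 1) (TT q z x) := by
          unfold TT
          rw [hIcc, filter_insert, if_pos hp]
        have hn : x + 1 ∉ TT q z x := by
          unfold TT
          rw [mem_filter, mem_Icc]
          omega
        refine ⟨1, ?_, ?_⟩
        · rw [e, card_insert_of_notMem hn]
          push_cast
          ring
        · rw [e, sum_insert hn]
          push_cast
          ring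
      · have e : TT q z (x + 1) = TT q z x := by
          unfold TT
          rw [hIcc, filter_insert, if_neg hp]
        exact ⟨0, by rw [e]; ring, by rw [e]; ring⟩
    rw [hδ2]
    have hs := step ((x : ℝ) + 1) (by
      have : (0 : ℝ) ≤ x := Nat.cast_nonneg x
      linarith)
    push_cast at hc ⊢
    have hsD : 0 ≤ Real.sqrt D := Real.sqrt_nonneg D
    have hx1 : (0 : ℝ) < (x : ℝ) + 1 := by positivity
    have hx2 : (0 : ℝ) < (x : ℝ) + 1 + 1 := by positivity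
    have hdiff : (0 : ℝ) ≤ 1 / ((x : ℝ) + 1) - 1 / ((x : ℝ) + 1 + 1) := by
      rw [sub_nonneg]
      exact one_div_le_one_div_of_le hx1 (by linarith)
    have k1 := mul_le_mul_of_nonneg_right hc hdiff
    have k2 := mul_le_mul_of_nonneg_left hs hsD
    rw [hδ1] at k1
    rw [hδ1]
    have e1 : (((TT q z x).card : ℝ) + δ) * (1 / ((x : ℝ) + 1) - 1 / ((x : ℝ) + 1 + 1)) =
        ((TT q z x).card : ℝ) / ((x : ℝ) + 1) + δ / ((x : ℝ) + 1) -
          (((TT q z x).card : ℝ) + δ) / ((x : ℝ) + 1 + 1) := by ring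
    rw [e1] at k1
    have e2 : Real.sqrt D * Real.sqrt ((x : ℝ) + 1) *
        (1 / ((x : ℝ) + 1) - 1 / ((x : ℝ) + 1 + 1)) =
        Real.sqrt D * (Real.sqrt ((x : ℝ) + 1) *
          (1 / ((x : ℝ) + 1) - 1 / ((x : ℝ) + 1 + 1))) := by ring
    rw [e2] at k1
    have e3 : 2 * Real.sqrt D * (1 / Real.sqrt ((z : ℝ) + 1) - 1 / Real.sqrt ((x : ℝ) + 1 + 1)) =
        2 * Real.sqrt D * (1 / Real.sqrt ((z : ℝ) + 1) - 1 / Real.sqrt ((x : ℝ) + 1)) +
        Real.sqrt D * (2 * (1 / Real.sqrt ((x : ℝ) + 1) - 1 / Real.sqrt ((x : ℝ) + 1 + 1))) := by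
      ring
    rw [e3]
    linarith

/-- the third part -/
theorem part3 (q z x : ℕ) (D : ℝ) (hD : 0 ≤ D) (hz : 2 ≤ z) (hzx : z ≤ x)
    (hDz : 9 * D ≤ (z : ℝ) ^ (1 / 4 : ℝ))
    (h : ∀ y : ℕ, 1 ≤ y → y ≤ x → ((NP q y).card : ℝ) ^ 2 ≤ D * y) :
    ∑ p ∈ (Icc (z + 1) x).filter (fun p => p.Prime ∧ ¬ p ∣ q), (1 : ℝ) / p ≤
      (z : ℝ) ^ (-(1 / 4) : ℝ) := by
  have hz2 : (2 : ℝ) ≤ z := by exact_mod_cast hz
  have hzx' : (z : ℝ) ≤ x := by exact_mod_cast hzx
  have hc : ∀ y : ℕ, z ≤ y → y ≤ x → ((TT q z y).card : ℝ) ≤ Real.sqrt D * Real.sqrt y := by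
    intro y h1 h2
    have h3 : ((TT q z y).card : ℝ) ≤ (NP q y).card := by
      exact_mod_cast card_le_card (TT_sub q z y hz)
    refine h3.trans ?_
    rw [← Real.sqrt_mul hD]
    exact Real.le_sqrt_of_sq_le (h y (by omega) h2)
  have h1 := sum_TT q z D hD x hzx hc
  have h2 := hc x hzx le_rfl
  have hsD : 0 ≤ Real.sqrt D := Real.sqrt_nonneg D
  have hz0 : (0 : ℝ) < z := by linarith
  have hx0 : (0 : ℝ) < x := by linarith
  have hsz : 0 < Real.sqrt z := Real.sqrt_pos.2 hz0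
  have hsx : 0 < Real.sqrt x := Real.sqrt_pos.2 hx0
  have k1 : ((TT q z x).card : ℝ) / ((x : ℝ) + 1) ≤ Real.sqrt D / Real.sqrt z := by
    rw [div_le_div_iff₀ (by positivity) hsz]
    have k2 : Real.sqrt z ≤ Real.sqrt x := Real.sqrt_le_sqrt hzx'
    have k3 : Real.sqrt x * Real.sqrt x = x := Real.mul_self_sqrt hx0.le
    calc ((TT q z x).card : ℝ) * Real.sqrt z ≤ (Real.sqrt D * Real.sqrt x) * Real.sqrt x :=
          mul_le_mul h2 k2 hsz.le (by positivity)
      _ = Real.sqrt D * x := by rw [mul_assoc, k3]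
      _ ≤ Real.sqrt D * ((x : ℝ) + 1) := mul_le_mul_of_nonneg_left (by linarith) hsD
  have k2 : 2 * Real.sqrt D * (1 / Real.sqrt ((z : ℝ) + 1) - 1 / Real.sqrt ((x : ℝ) + 1)) ≤
      2 * (Real.sqrt D / Real.sqrt z) := by
    have k3 : 1 / Real.sqrt ((z : ℝ) + 1) ≤ 1 / Real.sqrt z :=
      one_div_le_one_div_of_le hsz (Real.sqrt_le_sqrt (by linarith))
    have k4 : 0 ≤ 1 / Real.sqrt ((x : ℝ) + 1) := by positivity
    calc 2 * Real.sqrt D * (1 / Real.sqrt ((z : ℝ) + 1) - 1 / Real.sqrt ((x : ℝ) + 1)) ≤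
        2 * Real.sqrt D * (1 / Real.sqrt z) :=
          mul_le_mul_of_nonneg_left (by linarith) (by positivity)
      _ = 2 * (Real.sqrt D / Real.sqrt z) := by ring
  refine (h1.trans (add_le_add k1 k2)).trans ?_
  have e1 : Real.sqrt D / Real.sqrt z + 2 * (Real.sqrt D / Real.sqrt z) =
      Real.sqrt (9 * D) / Real.sqrt z := by
    rw [Real.sqrt_mul (by norm_num), show Real.sqrt 9 = 3 by
      rw [show (9 : ℝ) = 3 ^ 2 by norm_num]; exact Real.sqrt_sq (by norm_num)]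
    ring
  rw [e1]
  have e2 : Real.sqrt (9 * D) ≤ (z : ℝ) ^ (1 / 8 : ℝ) := by
    have h3 := Real.sqrt_le_sqrt hDz
    refine h3.trans (le_of_eq ?_)
    rw [Real.sqrt_eq_rpow, ← Real.rpow_mul hz0.le]
    norm_num
  rw [div_le_iff₀ hsz]
  have e3 : (z : ℝ) ^ (-(1 / 4) : ℝ) * Real.sqrt z = (z : ℝ) ^ (1 / 4 : ℝ) := by
    rw [Real.sqrt_eq_rpow, ← Real.rpow_add hz0]
    norm_num
  rw [e3]
  exact e2.trans (Real.rpow_le_rpow_of_exponent_le (by linarith) (by norm_num))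

/-- the second part -/
theorem part2 (z x N : ℕ) (U : Finset ℕ) (hU : ∀ p ∈ U, z < p ∧ p ≤ x) (hx : 1 ≤ x)
    (hxN : x ≤ N) : VV U ≤ 1 + Real.log N := by
  have h1 : VV U ≤ (harmonic x : ℝ) := by
    unfold VV
    rw [harmonic_eq_sum_Icc]
    push_cast
    simp only [one_div]
    refine sum_le_sum_of_subset_of_nonneg ?_ (fun i _ _ => by positivity)
    intro p hp
    have := hU p hp
    rw [mem_Icc]
    omega
  refine h1.trans ((harmonic_le_one_add_log x).trans ?_)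
  have h2 : Real.log x ≤ Real.log N :=
    Real.log_le_log (by exact_mod_cast hx) (by exact_mod_cast hxN)
  linarith

/-- the first part -/
theorem part1 (q z x : ℕ) (D L : ℝ) (hq : 1 ≤ q) (hD : 0 ≤ D) (hz : 2 ≤ z)
    (hx : (10 : ℝ) ^ 10 ≤ x) (hzx : z ≤ x)
    (hlog : 40 * Real.log z ^ 2 ≤ Real.log x) (hDz : 9 * D ≤ (z : ℝ) ^ (1 / 4 : ℝ))
    (hL : Real.log x ≤ L) (h : ((NP q x).card : ℝ) ^ 2 ≤ D * x) :
    1 / 20 / L ≤ VV ((OP q).filter (fun p => z < p ∧ p ≤ x)) := by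
  set U := (OP q).filter (fun p => z < p ∧ p ≤ x) with hU
  have hz2 : (2 : ℝ) ≤ z := by exact_mod_cast hz
  have hz0 : (0 : ℝ) < z := by linarith
  have hx0 : (0 : ℝ) < x := lt_of_lt_of_le (by norm_num) hx
  have hx1 : (1 : ℝ) ≤ x := le_trans (by norm_num) hx
  have hlx : 0 < Real.log x := Real.log_pos (lt_of_lt_of_le (by norm_num) hx)
  have hlz : (1 / 2 : ℝ) ≤ Real.log z := by
    have h1 : Real.log 2 ≤ Real.log z := Real.log_le_log (by norm_num) hz2
    have h2 : (0.6931471803 : ℝ) < Real.log 2 := Real.log_two_gt_d9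
    linarith
  have hz4 : (z : ℝ) ≤ (x : ℝ) ^ (1 / 4 : ℝ) := by
    have h1 : Real.log z ≤ Real.log x * (1 / 4) := by nlinarith
    have h2 := Real.exp_le_exp.2 h1
    rw [Real.exp_log hz0] at h2
    rw [Real.rpow_def_of_pos hx0]
    exact h2
  set r : ℝ := (x : ℝ) ^ (1 / 10 : ℝ) with hr
  have hr10 : r ^ 10 = x := by
    rw [hr, ← Real.rpow_natCast, ← Real.rpow_mul hx0.le]
    norm_num
  have hr0 : 0 < r := by positivity
  have hr1 : (10 : ℝ) ≤ r := by
    have h1 : (10 : ℝ) ^ 10 ≤ r ^ 10 := by rw [hr10]; exact hx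
    exact le_of_pow_le_pow_left₀ (by norm_num) hr0.le h1
  have hlog2 : Real.log x ≤ 10 * r := by
    rw [← hr10, Real.log_pow]
    push_cast
    have := Real.log_le_sub_one_of_pos hr0
    linarith
  -- sizes
  have hz6 : (z : ℝ) ≤ r ^ 6 := by
    refine hz4.trans ?_
    have h1 : (x : ℝ) ^ (1 / 4 : ℝ) ≤ (x : ℝ) ^ (6 / 10 : ℝ) :=
      Real.rpow_le_rpow_of_exponent_le hx1 (by norm_num)
    have h2 : (x : ℝ) ^ (6 / 10 : ℝ) = r ^ 6 := by
      rw [hr, ← Real.rpow_natCast, ← Real.rpow_mul hx0.le]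
      norm_num
    linarith
  have hD2 : D ≤ r ^ 2 := by
    have h1 : (z : ℝ) ^ (1 / 4 : ℝ) ≤ ((x : ℝ) ^ (1 / 4 : ℝ)) ^ (1 / 4 : ℝ) :=
      Real.rpow_le_rpow hz0.le hz4 (by norm_num)
    have h2 : ((x : ℝ) ^ (1 / 4 : ℝ)) ^ (1 / 4 : ℝ) = (x : ℝ) ^ (1 / 16 : ℝ) := by
      rw [← Real.rpow_mul hx0.le]
      norm_num
    have h3 : (x : ℝ) ^ (1 / 16 : ℝ) ≤ (x : ℝ) ^ (2 / 10 : ℝ) :=
      Real.rpow_le_rpow_of_exponent_le hx1 (by norm_num)
    have h4 : (x : ℝ) ^ (2 / 10 : ℝ) = r ^ 2 := by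
      rw [hr, ← Real.rpow_natCast, ← Real.rpow_mul hx0.le]
      norm_num
    linarith
  have hNP : ((NP q x).card : ℝ) ≤ r ^ 6 := by
    have h1 : ((NP q x).card : ℝ) ^ 2 ≤ (r ^ 6) ^ 2 := by
      refine h.trans ?_
      rw [← hr10]
      calc D * r ^ 10 ≤ r ^ 2 * r ^ 10 := mul_le_mul_of_nonneg_right hD2 (by positivity)
        _ = (r ^ 6) ^ 2 := by ring
    exact le_of_sq_le_sq h1 (by positivity)
  have hx3 : 3 ≤ x := by
    have : (3 : ℝ) ≤ x := le_trans (by norm_num) hx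
    exact_mod_cast this
  have hpi := pl_pi x hx3
  have hcov : ((Nat.primeCounting x : ℕ) : ℝ) ≤ 1 + (PP q x).card + (NP q x).card := by
    exact_mod_cast pl_cover q x hq
  have hPP : ((PP q x).card : ℝ) ≤ z + U.card := by
    have h1 : PP q x ⊆ Icc 1 z ∪ U := by
      intro p hp
      rw [PP, mem_filter] at hp
      have hp1 : p.Prime := by
        have := hp.1
        rw [OP, mem_erase, Nat.mem_primeFactors] at this
        exact this.2.1
      rw [mem_union]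
      by_cases hpz : p ≤ z
      · exact Or.inl (mem_Icc.2 ⟨hp1.one_lt.le, hpz⟩)
      · exact Or.inr (mem_filter.2 ⟨hp.1, by omega, by omega⟩)
    have h2 := (card_le_card h1).trans (card_union_le _ _)
    rw [Nat.card_Icc] at h2
    have h3 : (PP q x).card ≤ z + U.card := by omega
    exact_mod_cast h3
  have hcard : (x : ℝ) / (20 * Real.log x) ≤ U.card := by
    have h1 : 1 + (z : ℝ) + r ^ 6 ≤ x / (20 * Real.log x) := by
      rw [le_div_iff₀ (by positivity)]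
      have h2 : 1 + (z : ℝ) + r ^ 6 ≤ 3 * r ^ 6 := by
        have : (1 : ℝ) ≤ r ^ 6 := one_le_pow₀ (by linarith)
        linarith
      have h3 : (1 + (z : ℝ) + r ^ 6) * (20 * Real.log x) ≤ 3 * r ^ 6 * (20 * (10 * r)) :=
        mul_le_mul h2 (by linarith) (by positivity) (by positivity)
      refine h3.trans ?_
      rw [← hr10]
      have h4 : (600 : ℝ) ≤ r ^ 3 := by
        have : (10 : ℝ) ^ 3 ≤ r ^ 3 := pow_le_pow_left₀ (by norm_num) hr1 3
        linarith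
      calc 3 * r ^ 6 * (20 * (10 * r)) = 600 * r ^ 7 := by ring
        _ ≤ r ^ 3 * r ^ 7 := mul_le_mul_of_nonneg_right h4 (by positivity)
        _ = r ^ 10 := by ring
    have h2 : (x : ℝ) / (10 * Real.log x) = x / (20 * Real.log x) + x / (20 * Real.log x) := by
      field_simp
      norm_num
    linarith
  have hVV : (U.card : ℝ) / x ≤ VV U := by
    unfold VV
    rw [div_eq_mul_one_div, ← nsmul_eq_mul]
    refine card_nsmul_le_sum _ _ _ (fun p hp => ?_)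
    rw [hU, mem_filter] at hp
    have h1 : (p : ℝ) ≤ x := by exact_mod_cast hp.2.2
    have h2 : (0 : ℝ) < p := by
      have : 0 < p := by omega
      exact_mod_cast this
    exact one_div_le_one_div_of_le h2 h1
  refine le_trans ?_ hVV
  rw [le_div_iff₀ hx0]
  refine le_trans ?_ hcard
  have hL0 : 0 < L := by linarith
  rw [le_div_iff₀ (by positivity)]
  have e1 : 1 / 20 / L * (x : ℝ) * (20 * Real.log x) = x * (Real.log x / L) := by
    field_simp
  rw [e1]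
  have e2 : Real.log x / L ≤ 1 := (div_le_one hL0).2 hL
  nlinarith

end S17V

open S17V in
theorem st_VLB (hNPB : ST_NPB) (hPAR : ST_PAR) : ST_VLB := by
  obtain ⟨C, κ, hC, hκ, hN⟩ := hNPB
  intro ε hε
  obtain ⟨N0, hP⟩ := hPAR (10 ^ 10 + 10 * C) κ ε (by positivity) hκ hε
  refine ⟨1 / 20, N0, by norm_num, ?_⟩
  intro N q a hN0 hq hqa hS
  obtain ⟨p1, p2, p3, p4, p5, p6, p7, p8, p9, p10, p11, p12, p13, p14, p15⟩ := hP N hN0
  have hN1 : (1 : ℝ) ≤ N := by exact_mod_cast p1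
  have hlN : 0 ≤ Real.log N := Real.log_nonneg hN1
  have hL1 : (1 : ℝ) ≤ 1 + Real.log N := by linarith
  obtain ⟨M, hM⟩ : ∃ M, M = (1 + Real.log N) ^ κ := ⟨_, rfl⟩
  have hM0 : 0 ≤ M := by
    rw [hM]
    positivity
  rw [← hM] at p9 p10 p14
  have hzz : (1 : ℝ) ≤ zN N := by
    have : 1 ≤ zN N := by omega
    exact_mod_cast this
  have hx10 : (10 : ℝ) ^ 10 ≤ xN N := by linarith
  have hxs : (xN N : ℝ) ≤ Real.sqrt N := by
    refine p13.trans ?_
    rw [Real.sqrt_eq_rpow]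
    exact Real.rpow_le_rpow_of_exponent_le hN1 (by norm_num)
  have hxN : xN N ≤ N := by
    have h1 : (xN N : ℝ) ≤ N := by
      refine p13.trans ?_
      calc (N : ℝ) ^ (1 / 10 : ℝ) ≤ (N : ℝ) ^ (1 : ℝ) :=
            Real.rpow_le_rpow_of_exponent_le hN1 (by norm_num)
        _ = N := Real.rpow_one _
    exact_mod_cast h1
  have key : ∀ y : ℕ, 1 ≤ y → y ≤ xN N → ((NP q y).card : ℝ) ^ 2 ≤ C * M * y := by
    intro y hy1 hy2
    rw [hM]
    refine hN N q a y p1 hq hy1 hqa ?_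
    refine le_trans ?_ hS
    rw [← hM]
    have h1 : (y : ℝ) ≤ Real.sqrt N := le_trans (by exact_mod_cast hy2) hxs
    have h2 : Real.sqrt N + y ≤ 2 * Real.sqrt N := by linarith
    have h3 : (N : ℝ) ^ (1 / 2 + ε) = Real.sqrt N * (N : ℝ) ^ ε := by
      rw [Real.sqrt_eq_rpow, ← Real.rpow_add (by linarith)]
    have h4 : 0 ≤ Real.sqrt N := Real.sqrt_nonneg _
    have h5 : 2 * (C * M) ≤ (N : ℝ) ^ ε := by
      refine le_trans ?_ p14
      have : 0 ≤ C * M := by positivity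
      nlinarith
    rw [h3]
    calc C * M * (Real.sqrt N + y) ≤ C * M * (2 * Real.sqrt N) :=
          mul_le_mul_of_nonneg_left h2 (by positivity)
      _ = Real.sqrt N * (2 * (C * M)) := by ring
      _ ≤ Real.sqrt N * (N : ℝ) ^ ε := mul_le_mul_of_nonneg_left h5 h4
  have hD0 : 0 ≤ C * M := by positivity
  have hDz : 9 * (C * M) ≤ (zN N : ℝ) ^ (1 / 4 : ℝ) := by
    refine le_trans ?_ p10
    nlinarith
  have hx1 : 1 ≤ xN N := by omega
  have hlx : Real.log (xN N) ≤ 1 + Real.log N := by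
    have h2 : Real.log (xN N) ≤ Real.log N :=
      Real.log_le_log (by exact_mod_cast hx1) (by exact_mod_cast hxN)
    linarith
  refine ⟨?_, ?_, ?_⟩
  · exact part1 q (zN N) (xN N) (C * M) (1 + Real.log N) hq hD0 p3 hx10 p5 p6 hDz hlx
      (key _ hx1 le_rfl)
  · refine part2 (zN N) (xN N) N (UN N q) (fun p hp => ?_) hx1 hxN
    unfold UN at hp
    rw [mem_filter] at hp
    exact hp.2
  · exact part3 q (zN N) (xN N) (C * M) hD0 p3 p5 hDz key

end Pool.Agent.Helper19.RD
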